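import Pool.Agent.P.MP_eae75b_ag.StD

namespace Pool.Agent.Results.MP_eae75b_ag.SharpRemainder

theorem result :
  ∀ (k : Type) [Field k] [Infinite k] (d : ℕ) (I : Ideal (MvPowerSeries (Fin (d+1)) k)),
    I.radical = Ideal.span (Set.range (MvPowerSeries.X : Fin (d+1) → MvPowerSeries (Fin (d+1)) k)) →
    ∃ o v : ℕ,
      IsGreatest {n : ℕ | I ≤ Ideal.span
        (Set.range (MvPowerSeries.X : Fin (d+1) → MvPowerSeries (Fin (d+1)) k)) ^ n} o ∧
      IsLeast {n : ℕ | Ideal.span
        (Set.range (MvPowerSeries.X : Fin (d+1) → MvPowerSeries (Fin (d+1)) k)) ^ n ≤ I} v ∧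
      o ≤ v ∧
    ∃ P : MvPolynomial (Fin d × Fin (d+1)) k, P ≠ 0 ∧
      ∀ c : Fin d → Fin (d+1) → k, MvPolynomial.eval (fun p => c p.1 p.2) P ≠ 0 →
        ∀ e : Fin (d+1) → ℝ,
          (∀ i : Fin (d+1), Filter.Tendsto
            (fun n : ℕ => ((Nat.factorial (d+1-i.val) : ℝ) *
              ((Module.length (MvPowerSeries (Fin (d+1)) k)
                (MvPowerSeries (Fin (d+1)) k ⧸
                  (I ^ n ⊔ Ideal.span {f : MvPowerSeries (Fin (d+1)) k |
                    ∃ j : Fin d, j.val < i.val ∧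
                      f = ∑ t : Fin (d+1), c j t • (MvPowerSeries.X t : MvPowerSeries (Fin (d+1)) k)}))).toNat : ℝ))
              / (n : ℝ) ^ (d+1-i.val))
            Filter.atTop (nhds (e i))) →
          ∑ i : Fin (d+1), ((ascPochhammer ℕ (d+1)).coeff (d+1-i.val) : ℝ) * e i
            + ((Nat.factorial (d+1) : ℝ) - 1) * ((v : ℝ) - o)
            ≤ (Nat.factorial (d+1) : ℝ) *
              ((Module.length (MvPowerSeries (Fin (d+1)) k)
                (MvPowerSeries (Fin (d+1)) k ⧸ I)).toNat : ℝ) := by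
  intro k _ _ d I hI
  obtain ⟨o, v, ho, hv, hov⟩ := Pool.Agent.P.MP_eae75b_ag.exists_ord k d I hI
  exact ⟨o, v, ho, hv, hov, Pool.Agent.P.MP_eae75b_ag.main2 k d I hI o v ho hv⟩

/-- The instance without the remainder term (the earlier hand-in FullStirlingSum):
the remainder is nonnegative, so it can be dropped. -/
theorem without_remainder :
  ∀ (k : Type) [Field k] [Infinite k] (d : ℕ) (I : Ideal (MvPowerSeries (Fin (d+1)) k)),
    I.radical = Ideal.span (Set.range (MvPowerSeries.X : Fin (d+1) → MvPowerSeries (Fin (d+1)) k)) →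
    ∃ P : MvPolynomial (Fin d × Fin (d+1)) k, P ≠ 0 ∧
      ∀ c : Fin d → Fin (d+1) → k, MvPolynomial.eval (fun p => c p.1 p.2) P ≠ 0 →
        ∀ e : Fin (d+1) → ℝ,
          (∀ i : Fin (d+1), Filter.Tendsto
            (fun n : ℕ => ((Nat.factorial (d+1-i.val) : ℝ) *
              ((Module.length (MvPowerSeries (Fin (d+1)) k)
                (MvPowerSeries (Fin (d+1)) k ⧸
                  (I ^ n ⊔ Ideal.span {f : MvPowerSeries (Fin (d+1)) k |
                    ∃ j : Fin d, j.val < i.val ∧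
                      f = ∑ t : Fin (d+1), c j t • (MvPowerSeries.X t : MvPowerSeries (Fin (d+1)) k)}))).toNat : ℝ))
              / (n : ℝ) ^ (d+1-i.val))
            Filter.atTop (nhds (e i))) →
          ∑ i : Fin (d+1), ((ascPochhammer ℕ (d+1)).coeff (d+1-i.val) : ℝ) * e i
            ≤ (Nat.factorial (d+1) : ℝ) *
              ((Module.length (MvPowerSeries (Fin (d+1)) k)
                (MvPowerSeries (Fin (d+1)) k ⧸ I)).toNat : ℝ) := by
  intro k _ _ d I hI
  obtain ⟨o, v, -, -, hov, P, hP, h⟩ := result k d I hI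
  refine ⟨P, hP, fun c hc e he => ?_⟩
  have h1 : (1 : ℝ) ≤ (Nat.factorial (d+1) : ℝ) := by
    exact_mod_cast Nat.succ_le_of_lt (Nat.factorial_pos (d+1))
  have h2 : (o : ℝ) ≤ (v : ℝ) := by exact_mod_cast hov
  have h3 : 0 ≤ ((Nat.factorial (d+1) : ℝ) - 1) * ((v : ℝ) - o) :=
    mul_nonneg (sub_nonneg.2 h1) (sub_nonneg.2 h2)
  linarith [h c hc e he]

end Pool.Agent.Results.MP_eae75b_ag.SharpRemainder
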